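import Pool.Agent.H812.Tm.Spec4

/-!
Normal form of a fan, large digits (project TM of helper812).
-/

set_option autoImplicit false

open Real Filter Topology Set
open scoped ContDiff

namespace Pool.Agent.H294.Tm

open Pool.Agent.W811.Stu Pool.Agent.H812.Tm

noncomputable section

namespace NFb

/-! ### the function `ρ` -/

def SS (δ ϑ : ℝ) : ℝ := √(sin ϑ ^ 2 + δ ^ 2)

def rh (δ ϑ : ℝ) : ℝ := sin ϑ / SS δ ϑ

def rhd (δ ϑ : ℝ) : ℝ := cos ϑ * δ ^ 2 / SS δ ϑ ^ 3

variable {δ : ℝ}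

lemma arg_pos (hδ : δ ≠ 0) (ϑ : ℝ) : 0 < sin ϑ ^ 2 + δ ^ 2 := by positivity

lemma SS_pos (hδ : δ ≠ 0) (ϑ : ℝ) : 0 < SS δ ϑ := Real.sqrt_pos.2 (arg_pos hδ ϑ)

lemma SS_sq (hδ : δ ≠ 0) (ϑ : ℝ) : SS δ ϑ ^ 2 = sin ϑ ^ 2 + δ ^ 2 := Real.sq_sqrt (arg_pos hδ ϑ).le

lemma rh_contDiff (hδ : δ ≠ 0) : ContDiff ℝ ∞ (rh δ) := by
  unfold rh SS
  refine ContDiff.div Real.contDiff_sin ?_ fun ϑ => (SS_pos hδ ϑ).ne'
  exact ContDiff.sqrt (by fun_prop) fun ϑ => (arg_pos hδ ϑ).ne'

lemma rh_hasDeriv (hδ : δ ≠ 0) (ϑ : ℝ) : HasDerivAt (rh δ) (rhd δ ϑ) ϑ := by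
  have hS := SS_pos hδ ϑ
  have hS2 := SS_sq hδ ϑ
  have h1 : HasDerivAt (fun t => sin t ^ 2 + δ ^ 2) (2 * sin ϑ * cos ϑ) ϑ := by
    have := ((Real.hasDerivAt_sin ϑ).pow 2).add_const (δ ^ 2)
    simpa using this
  have h2 : HasDerivAt (SS δ) (2 * sin ϑ * cos ϑ / (2 * SS δ ϑ)) ϑ :=
    h1.sqrt (arg_pos hδ ϑ).ne'
  have h3 := (Real.hasDerivAt_sin ϑ).div h2 hS.ne'
  have e : (cos ϑ * SS δ ϑ - sin ϑ * (2 * sin ϑ * cos ϑ / (2 * SS δ ϑ))) / SS δ ϑ ^ 2 =
      rhd δ ϑ := by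
    unfold rhd
    have h4 : cos ϑ * SS δ ϑ - sin ϑ * (2 * sin ϑ * cos ϑ / (2 * SS δ ϑ)) =
        cos ϑ * δ ^ 2 / SS δ ϑ := by
      field_simp
      rw [hS2]
      ring
    rw [h4]
    field_simp
  rw [← e]
  exact h3

lemma abs_le_SS (hδ : δ ≠ 0) (ϑ : ℝ) : |δ| ≤ SS δ ϑ := by
  refine Real.le_sqrt_of_sq_le ?_
  rw [sq_abs]
  nlinarith [sq_nonneg (sin ϑ)]

lemma rhd_le (hδ : δ ≠ 0) (ϑ : ℝ) : |rhd δ ϑ| ≤ 1 / |δ| := by
  have hS := SS_pos hδ ϑ
  have hd : 0 < |δ| := abs_pos.2 hδ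
  have h1 := abs_le_SS hδ ϑ
  unfold rhd
  rw [abs_div, abs_mul, abs_of_pos (pow_pos hS 3), abs_of_nonneg (sq_nonneg δ), div_le_div_iff₀
    (pow_pos hS 3) hd, one_mul]
  have h2 : |δ| ^ 3 ≤ SS δ ϑ ^ 3 := by gcongr
  have h3 : |cos ϑ| ≤ 1 := Real.abs_cos_le_one ϑ
  calc |cos ϑ| * δ ^ 2 * |δ| = |cos ϑ| * |δ| ^ 3 := by
        rw [← sq_abs δ]
        ring
    _ ≤ 1 * |δ| ^ 3 := by gcongr
    _ ≤ SS δ ϑ ^ 3 := by rw [one_mul]; exact h2

lemma rh_le (hδ : δ ≠ 0) (ϑ : ℝ) : |rh δ ϑ| ≤ 1 / cc δ := by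
  have hS := SS_pos hδ ϑ
  have hc := cc_pos δ
  unfold rh
  rw [abs_div, abs_of_pos hS, div_le_div_iff₀ hS hc, one_mul]
  have h1 : (|sin ϑ| * cc δ) ^ 2 ≤ SS δ ϑ ^ 2 := by
    rw [mul_pow, sq_abs, cc_sq, SS_sq hδ]
    have : sin ϑ ^ 2 ≤ 1 := Real.sin_sq_le_one ϑ
    nlinarith [sq_nonneg δ]
  exact (sq_le_sq₀ (by positivity) hS.le).1 h1

/-! ### a smooth extension of `arccos` -/

lemma exists_A {m1 : ℝ} (h0 : 0 < m1) (h1 : m1 < 1) : ∃ A : ℝ → ℝ, ContDiff ℝ ∞ A ∧
    ∀ x, |x| < m1 → A x = arccos x ∧ HasDerivAt A (-(1 / √(1 - x ^ 2))) x := by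
  let χ : ContDiffBump (0 : ℝ) := ⟨m1, (m1 + 1) / 2, h0, by linarith⟩
  refine ⟨fun x => χ x * arccos x, ?_, ?_⟩
  · rw [contDiff_iff_contDiffAt]
    intro x
    by_cases hx : |x| < 1
    · have hx2 := abs_lt.1 hx
      exact χ.contDiff.contDiffAt.mul (Real.contDiffAt_arccos (by linarith) (by linarith))
    · have hx1 : x ∉ tsupport (χ : ℝ → ℝ) := by
        rw [χ.tsupport_eq, mem_closedBall_zero_iff, Real.norm_eq_abs]
        change ¬ |x| ≤ (m1 + 1) / 2
        rw [not_lt] at hx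
        rw [not_le]
        linarith
      have h2 := notMem_tsupport_iff_eventuallyEq.1 hx1
      refine ContDiffAt.congr_of_eventuallyEq (f := fun _ => (0 : ℝ)) contDiffAt_const ?_
      filter_upwards [h2] with y hy
      rw [hy]
      exact zero_mul _
  · intro x hx
    have hone : ∀ y, |y| < m1 → χ y * arccos y = arccos y := by
      intro y hy
      rw [χ.one_of_mem_closedBall, one_mul]
      rw [mem_closedBall_zero_iff, Real.norm_eq_abs]
      exact hy.le
    refine ⟨hone x hx, ?_⟩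
    have hx2 : |x| < 1 := by linarith
    rw [abs_lt] at hx2
    have h2 := Real.hasDerivAt_arccos (x := x) (by linarith) (by linarith)
    refine h2.congr_of_eventuallyEq ?_
    have : ∀ᶠ y in 𝓝 x, |y| < m1 := (continuous_abs.continuousAt).eventually (gt_mem_nhds hx)
    filter_upwards [this] with y hy
    exact hone y hy

/-! ### connectedness -/

lemma sign_const {I : Set ℝ} (hI : I.OrdConnected) (hne : I.Nonempty) {g : ℝ → ℝ}
    (hg : ContinuousOn g I) (h0 : ∀ t ∈ I, g t ≠ 0) :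
    ∃ ε : ℝ, (ε = 1 ∨ ε = -1) ∧ ∀ t ∈ I, 0 < ε * g t := by
  obtain ⟨t0, ht0⟩ := hne
  have hpc := hI.isPreconnected
  rcases lt_or_gt_of_ne (h0 t0 ht0) with h | h
  · refine ⟨-1, Or.inr rfl, fun t ht => ?_⟩
    by_contra hcon
    have h1 : 0 < g t := by
      rcases lt_or_gt_of_ne (h0 t ht) with h2 | h2
      · exfalso
        apply hcon
        linarith
      · exact h2
    obtain ⟨s, hs, hs0⟩ := hpc.intermediate_value ht0 ht hg ⟨h.le, h1.le⟩
    exact h0 s hs hs0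
  · refine ⟨1, Or.inl rfl, fun t ht => ?_⟩
    rw [one_mul]
    by_contra hcon
    have h1 : g t < 0 := lt_of_le_of_ne (not_lt.1 hcon) (h0 t ht)
    obtain ⟨s, hs, hs0⟩ := hpc.intermediate_value ht ht0 hg ⟨h1.le, h.le⟩
    exact h0 s hs hs0

lemma int_const {I : Set ℝ} (hI : I.OrdConnected) (hne : I.Nonempty) {f : ℝ → ℝ}
    (hf : ContinuousOn f I) (h0 : ∀ t ∈ I, ∃ m : ℤ, f t = m) : ∃ m : ℤ, ∀ t ∈ I, f t = m := by
  obtain ⟨t0, ht0⟩ := hne
  obtain ⟨m0, hm0⟩ := h0 t0 ht0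
  have hpc := hI.isPreconnected
  refine ⟨m0, fun t ht => ?_⟩
  obtain ⟨m, hm⟩ := h0 t ht
  rw [hm]
  by_contra hcon
  have hne' : m ≠ m0 := fun h => hcon (by rw [h])
  have key : ∀ k : ℤ, ∀ s ∈ I, f s ≠ (k : ℝ) + 1 / 2 := by
    intro k s hs h
    obtain ⟨j, hj⟩ := h0 s hs
    rw [hj] at h
    have h2 : (2 * j : ℝ) = 2 * k + 1 := by linarith
    have h3 : 2 * j = 2 * k + 1 := by exact_mod_cast h2
    omega
  rcases lt_or_gt_of_ne hne' with h | h
  · have h1 : (m : ℝ) + 1 ≤ m0 := by exact_mod_cast h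
    obtain ⟨s, hs, hs0⟩ := hpc.intermediate_value ht ht0 hf
      (show (m : ℝ) + 1 / 2 ∈ Icc (f t) (f t0) by
        rw [hm, hm0]
        constructor <;> linarith)
    exact key m s hs hs0
  · have h1 : (m0 : ℝ) + 1 ≤ m := by exact_mod_cast h
    obtain ⟨s, hs, hs0⟩ := hpc.intermediate_value ht0 ht hf
      (show (m0 : ℝ) + 1 / 2 ∈ Icc (f t0) (f t) by
        rw [hm, hm0]
        constructor <;> linarith)
    exact key m0 s hs hs0

/-! ### the formula for `t_k` -/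

lemma tD (p : P3) (hy : |p.y| < 1) (k : ℕ) :
    (stepR^[k] p).z * sin (arccos p.y) = p.z * cos (k * arccos p.y) * sin (arccos p.y) +
      gX p * sin (k * arccos p.y) ∧
    (stepR^[k] p).x * sin (arccos p.y) = p.z * cos ((k + 1) * arccos p.y) * sin (arccos p.y) +
      gX p * sin ((k + 1) * arccos p.y) := by
  have hc : cos (arccos p.y) = p.y := by
    rw [abs_lt] at hy
    exact Real.cos_arccos hy.1.le hy.2.le
  set ϑ := arccos p.y with hϑ
  induction k with
  | zero =>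
    simp only [Function.iterate_zero, id, Nat.cast_zero, zero_mul, cos_zero, sin_zero, mul_one,
      mul_zero, add_zero, zero_add, one_mul, true_and]
    unfold gX
    rw [hc]
    ring
  | succ k ih =>
    obtain ⟨h1, h2⟩ := ih
    rw [Function.iterate_succ_apply']
    refine ⟨?_, ?_⟩
    · push_cast
      exact h2
    · have e : (stepR (stepR^[k] p)).x = 2 * (stepR^[k] p).x * p.y - (stepR^[k] p).z := by
        change 2 * (stepR^[k] p).x * (stepR^[k] p).y - (stepR^[k] p).z = _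
        rw [iter_y]
      rw [e]
      have e1 : (((k + 1 : ℕ) : ℝ) + 1) * ϑ = ((k : ℝ) + 1) * ϑ + ϑ := by
        push_cast
        ring
      have e2 : (k : ℝ) * ϑ = ((k : ℝ) + 1) * ϑ - ϑ := by ring
      rw [e2, cos_sub, sin_sub] at h1
      rw [e1, cos_add, sin_add]
      rw [hc] at h1 ⊢
      linear_combination (2 * p.y) * h2 - h1

lemma sin_pos' {y : ℝ} (hy : |y| < 1) : 0 < sin (arccos y) := by
  rw [Real.sin_arccos]
  rw [abs_lt] at hy
  exact Real.sqrt_pos.2 (by nlinarith)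

lemma sin_sq' {y : ℝ} (hy : |y| < 1) : sin (arccos y) ^ 2 = 1 - y ^ 2 := by
  rw [Real.sin_arccos]
  rw [abs_lt] at hy
  exact Real.sq_sqrt (by nlinarith)

lemma eps_sq {ε : ℝ} (hε : ε = 1 ∨ ε = -1) : ε ^ 2 = 1 := by
  rcases hε with rfl | rfl <;> norm_num

lemma one_sub_sq (hδ : δ ≠ 0) {p : P3} (hS : OnS δ p) (hy : |p.y| < 1) {ε : ℝ}
    (hε : ε = 1 ∨ ε = -1) :
    1 - (p.z * rh δ (arccos p.y)) ^ 2 = (ε * gX p / SS δ (arccos p.y)) ^ 2 := by
  have hSp := SS_pos hδ (arccos p.y)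
  have hS2 := SS_sq hδ (arccos p.y)
  have hX := hS.X2
  have hs := sin_sq' hy
  unfold rh
  rw [mul_div_assoc', div_pow, div_pow, mul_pow, mul_pow, eps_sq hε, eq_div_iff (by positivity),
    sub_mul, div_mul_cancel₀ _ (by positivity), hS2, hs, hX]
  ring

lemma sqrt_one_sub (hδ : δ ≠ 0) {p : P3} (hS : OnS δ p) (hy : |p.y| < 1) {ε : ℝ}
    (hε : ε = 1 ∨ ε = -1) (hg : 0 < ε * gX p) :
    √(1 - (p.z * rh δ (arccos p.y)) ^ 2) = ε * gX p / SS δ (arccos p.y) := by
  rw [one_sub_sq hδ hS hy hε, Real.sqrt_sq (div_nonneg hg.le (SS_pos hδ _).le)]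

lemma abs_zr_lt (hδ : δ ≠ 0) {p : P3} (hS : OnS δ p) (hy : |p.y| < 1) {ε : ℝ}
    (hε : ε = 1 ∨ ε = -1) (hg : 0 < ε * gX p) : |p.z * rh δ (arccos p.y)| < 1 := by
  have h1 := one_sub_sq hδ hS hy hε
  have h2 : 0 < (ε * gX p / SS δ (arccos p.y)) ^ 2 := pow_pos (div_pos hg (SS_pos hδ _)) 2
  rw [← h1] at h2
  rw [← sq_lt_one_iff_abs_lt_one]
  linarith

/-- the basic identity -/
lemma P_id (hδ : δ ≠ 0) {p : P3} (hS : OnS δ p) (hy : |p.y| < 1) {ε : ℝ}
    (hε : ε = 1 ∨ ε = -1) (hg : 0 < ε * gX p) (D : ℕ) :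
    rh δ (arccos p.y) * (stepR^[D] p).z =
      cos (D * arccos p.y - ε * arccos (p.z * rh δ (arccos p.y))) := by
  have hlt := abs_zr_lt hδ hS hy hε hg
  have hsq := sqrt_one_sub hδ hS hy hε hg
  have hSp := SS_pos hδ (arccos p.y)
  have hD := (tD p hy D).1
  rw [abs_lt] at hlt
  have hc : cos (arccos (p.z * rh δ (arccos p.y))) = p.z * rh δ (arccos p.y) :=
    Real.cos_arccos hlt.1.le hlt.2.le
  have hsn : sin (arccos (p.z * rh δ (arccos p.y))) = ε * gX p / SS δ (arccos p.y) := by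
    rw [Real.sin_arccos, hsq]
  have e1 : cos (ε * arccos (p.z * rh δ (arccos p.y))) = p.z * rh δ (arccos p.y) := by
    rcases hε with rfl | rfl
    · rw [one_mul, hc]
    · rw [neg_one_mul, cos_neg, hc]
  have e2 : sin (ε * arccos (p.z * rh δ (arccos p.y))) = gX p / SS δ (arccos p.y) := by
    rcases hε with rfl | rfl
    · rw [one_mul, hsn, one_mul]
    · rw [neg_one_mul, sin_neg, hsn]
      ring
  rw [cos_sub, e1, e2]
  unfold rh
  rw [div_mul_eq_mul_div, mul_comm (sin (arccos p.y)), hD]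
  field_simp

/-! ### derivative of the basic identity along tangent vectors -/

lemma tan_id (hδ : δ ≠ 0) {q : P3} (hS : OnS δ q) (hy : |q.y| < 1) {ε : ℝ}
    (hε : ε = 1 ∨ ε = -1) (hg : 0 < ε * gX q) (D : ℕ) {u : P3} (hu : Tan q u) :
    rhd δ (arccos q.y) * (-(1 / √(1 - q.y ^ 2)) * u.y) * (stepR^[D] q).z +
        rh δ (arccos q.y) * (dRk D q u).z =
      -sin (D * arccos q.y - ε * arccos (q.z * rh δ (arccos q.y))) *
        (D * (-(1 / √(1 - q.y ^ 2)) * u.y) - ε * (-(1 / √(1 - (q.z * rh δ (arccos q.y)) ^ 2)) *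
          (u.z * rh δ (arccos q.y) + q.z * (rhd δ (arccos q.y) *
            (-(1 / √(1 - q.y ^ 2)) * u.y))))) := by
  -- the curve
  let E : ℝ → ℝ := fun s => δ ^ 2 + (1 - (q.z + s * u.z) ^ 2) * (1 - (q.y + s * u.y) ^ 2)
  let γ : ℝ → P3 := fun s => ⟨q.z + s * u.z, q.y + s * u.y,
    (q.y + s * u.y) * (q.z + s * u.z) + ε * √(E s)⟩
  have hX := hS.X2
  have hε2 := eps_sq hε
  have hE0 : E 0 = (ε * gX q) ^ 2 := by
    change δ ^ 2 + (1 - (q.z + 0 * u.z) ^ 2) * (1 - (q.y + 0 * u.y) ^ 2) = _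
    rw [mul_pow, hε2, hX]
    ring
  have hE0' : √(E 0) = ε * gX q := by rw [hE0, Real.sqrt_sq hg.le]
  have hEpos : 0 < E 0 := by rw [hE0]; exact pow_pos hg 2
  have hEcont : Continuous E := by
    change Continuous fun s => δ ^ 2 + (1 - (q.z + s * u.z) ^ 2) * (1 - (q.y + s * u.y) ^ 2)
    fun_prop
  have hγ0 : γ 0 = q := by
    change (⟨q.z + 0 * u.z, q.y + 0 * u.y, (q.y + 0 * u.y) * (q.z + 0 * u.z) + ε * √(E 0)⟩ : P3) = q
    rw [hE0']
    ext
    · simp
    · simp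
    · simp only [zero_mul, add_zero]
      unfold gX
      linear_combination (q.x - q.y * q.z) * hε2
  have hlz : HasDerivAt (fun s => q.z + s * u.z) u.z 0 := by
    simpa using ((hasDerivAt_id (0 : ℝ)).mul_const u.z).const_add q.z
  have hly : HasDerivAt (fun s => q.y + s * u.y) u.y 0 := by
    simpa using ((hasDerivAt_id (0 : ℝ)).mul_const u.y).const_add q.y
  have hEd : HasDerivAt E (-(2 * q.z * u.z) * (1 - q.y ^ 2) + (1 - q.z ^ 2) * (-(2 * q.y * u.y))) 0 := by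
    have h1 := ((hlz.pow 2).const_sub 1).mul ((hly.pow 2).const_sub 1)
    have h2 : HasDerivAt E _ 0 := h1.const_add (δ ^ 2)
    refine h2.congr_deriv ?_
    simp [Pi.pow_apply]
  have hgne : ε * gX q ≠ 0 := hg.ne'
  have hgX : gX q ≠ 0 := fun h => hgne (by rw [h, mul_zero])
  have hεne : ε ≠ 0 := fun h => hgne (by rw [h, zero_mul])
  have hder : HasDer γ u 0 := by
    refine ⟨hlz, hly, ?_⟩
    have h1 : HasDerivAt (fun s => (γ s).x) (u.y * (q.z + 0 * u.z) + (q.y + 0 * u.y) * u.z +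
        ε * ((-(2 * q.z * u.z) * (1 - q.y ^ 2) + (1 - q.z ^ 2) * (-(2 * q.y * u.y))) /
        (2 * √(E 0)))) 0 := (hly.mul hlz).add ((hEd.sqrt hEpos.ne').const_mul ε)
    refine h1.congr_deriv ?_
    rw [hE0']
    simp only [zero_mul, add_zero]
    unfold Tan at hu
    have e : ε * ((-(2 * q.z * u.z) * (1 - q.y ^ 2) + (1 - q.z ^ 2) * (-(2 * q.y * u.y))) /
        (2 * (ε * gX q))) = -(q.z * u.z * (1 - q.y ^ 2) + (1 - q.z ^ 2) * (q.y * u.y)) / gX q := by
      field_simp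
      ring
    rw [e, ← eq_sub_iff_add_eq', div_eq_iff hgX]
    unfold gA gB at hu
    have hXd : gX q = q.x - q.y * q.z := rfl
    rw [hXd] at hu ⊢
    linear_combination -hu
  -- the identity holds near 0
  have ev1 : ∀ᶠ s in 𝓝 (0 : ℝ), 0 < E s :=
    (hEcont.tendsto 0).eventually (lt_mem_nhds hEpos)
  have ev2 : ∀ᶠ s in 𝓝 (0 : ℝ), |(γ s).y| < 1 := by
    have hc : Continuous fun s : ℝ => |q.y + s * u.y| := by fun_prop
    have h2 : Tendsto (fun s : ℝ => |q.y + s * u.y|) (𝓝 0) (𝓝 |q.y|) := by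
      have := hc.tendsto 0
      simpa using this
    exact h2.eventually (gt_mem_nhds hy)
  have evid : (fun s => rh δ (arccos (γ s).y) * (stepR^[D] (γ s)).z) =ᶠ[𝓝 0]
      fun s => cos (D * arccos (γ s).y - ε * arccos ((γ s).z * rh δ (arccos (γ s).y))) := by
    filter_upwards [ev1, ev2] with s h1 h2
    have hgs : gX (γ s) = ε * √(E s) := by
      change (q.y + s * u.y) * (q.z + s * u.z) + ε * √(E s) - (q.y + s * u.y) * (q.z + s * u.z) = _
      ring
    have hSs : OnS δ (γ s) := by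
      have h3 : gX (γ s) ^ 2 = E s := by
        rw [hgs, mul_pow, hε2, Real.sq_sqrt h1.le, one_mul]
      have hyz : (γ s).y = q.y + s * u.y ∧ (γ s).z = q.z + s * u.z := ⟨rfl, rfl⟩
      change ((γ s).x - (γ s).y * (γ s).z) ^ 2 =
        δ ^ 2 + (1 - (γ s).z ^ 2) * (1 - (γ s).y ^ 2) at h3
      unfold OnS
      linear_combination h3
    refine P_id hδ hSs h2 hε ?_ D
    rw [hgs, ← mul_assoc, ← sq, hε2, one_mul]
    exact Real.sqrt_pos.2 h1
  -- derivatives
  have hyab := abs_lt.1 hy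
  have hth : HasDerivAt (fun s => arccos (γ s).y) (-(1 / √(1 - q.y ^ 2)) * u.y) 0 := by
    have h1 : HasDerivAt arccos (-(1 / √(1 - q.y ^ 2))) (γ 0).y := by
      rw [hγ0]
      exact Real.hasDerivAt_arccos (by linarith) (by linarith)
    exact HasDerivAt.comp (h₂ := arccos) (h := fun s => (γ s).y) (0 : ℝ) h1 hder.2.1
  have hrh : HasDerivAt (fun s => rh δ (arccos (γ s).y))
      (rhd δ (arccos q.y) * (-(1 / √(1 - q.y ^ 2)) * u.y)) 0 := by
    have h1 : HasDerivAt (rh δ) (rhd δ (arccos q.y)) (arccos (γ 0).y) := by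
      rw [hγ0]
      exact rh_hasDeriv hδ _
    exact HasDerivAt.comp (h₂ := rh δ) (h := fun s => arccos (γ s).y) (0 : ℝ) h1 hth
  have hL : HasDerivAt (fun s => rh δ (arccos (γ s).y) * (stepR^[D] (γ s)).z)
      (rhd δ (arccos q.y) * (-(1 / √(1 - q.y ^ 2)) * u.y) * (stepR^[D] (γ 0)).z +
        rh δ (arccos (γ 0).y) * (dRk D (γ 0) u).z) 0 := hrh.mul (hder.iter D).1
  rw [hγ0] at hL
  have hlt := abs_lt.1 (abs_zr_lt hδ hS hy hε hg)
  have hac : HasDerivAt (fun s => arccos ((γ s).z * rh δ (arccos (γ s).y)))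
      (-(1 / √(1 - (q.z * rh δ (arccos q.y)) ^ 2)) *
          (u.z * rh δ (arccos q.y) + q.z * (rhd δ (arccos q.y) *
            (-(1 / √(1 - q.y ^ 2)) * u.y)))) 0 := by
    have h1 : HasDerivAt arccos (-(1 / √(1 - (q.z * rh δ (arccos q.y)) ^ 2)))
        ((γ 0).z * rh δ (arccos (γ 0).y)) := by
      rw [hγ0]
      exact Real.hasDerivAt_arccos (by linarith) (by linarith)
    have h2 : HasDerivAt (fun s => (γ s).z * rh δ (arccos (γ s).y))
      (u.z * rh δ (arccos (γ 0).y) + (γ 0).z * (rhd δ (arccos q.y) *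
            (-(1 / √(1 - q.y ^ 2)) * u.y))) 0 := hder.1.mul hrh
    rw [hγ0] at h2
    exact HasDerivAt.comp (h₂ := arccos) (h := fun s => (γ s).z * rh δ (arccos (γ s).y))
      (0 : ℝ) h1 h2
  have hR : HasDerivAt
      (fun s => cos (D * arccos (γ s).y - ε * arccos ((γ s).z * rh δ (arccos (γ s).y))))
      (-sin (D * arccos q.y - ε * arccos (q.z * rh δ (arccos q.y))) *
        (D * (-(1 / √(1 - q.y ^ 2)) * u.y) - ε * (-(1 / √(1 - (q.z * rh δ (arccos q.y)) ^ 2)) *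
          (u.z * rh δ (arccos q.y) + q.z * (rhd δ (arccos q.y) *
            (-(1 / √(1 - q.y ^ 2)) * u.y)))))) 0 := by
    have h1 : HasDerivAt
      (fun s => cos (D * arccos (γ s).y - ε * arccos ((γ s).z * rh δ (arccos (γ s).y))))
      (-sin (D * arccos (γ 0).y - ε * arccos ((γ 0).z * rh δ (arccos (γ 0).y))) *
        (D * (-(1 / √(1 - q.y ^ 2)) * u.y) - ε * (-(1 / √(1 - (q.z * rh δ (arccos q.y)) ^ 2)) *
          (u.z * rh δ (arccos q.y) + q.z * (rhd δ (arccos q.y) *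
            (-(1 / √(1 - q.y ^ 2)) * u.y)))))) 0 :=
      ((hth.const_mul (D : ℝ)).sub (hac.const_mul ε)).cos
    rw [hγ0] at h1
    exact h1
  exact hL.unique (hR.congr_of_eventuallyEq evid)

/-! ### the functions `c` and `F` -/

/-- `c` -/
def cF (P : ℝ × (Fin 4 → ℝ)) : ℝ := cos (P.2 0 + P.2 1 * P.1)

/-- `F` -/
def FF (δ : ℝ) (A : ℝ → ℝ) (P : ℝ × ℝ × ℝ × (Fin 4 → ℝ)) : ℝ :=
  P.2.1 - P.2.2.2 2 * A (P.1 * rh δ (P.2.2.2 0 + P.2.2.2 1 * P.2.1)) -
    P.2.2.2 3 * A (P.2.2.1 * rh δ (P.2.2.2 0 + P.2.2.2 1 * P.2.1))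

lemma cF_contDiff : ContDiff ℝ ∞ cF := by
  unfold cF
  fun_prop

lemma FF_contDiff (hδ : δ ≠ 0) {A : ℝ → ℝ} (hA : ContDiff ℝ ∞ A) : ContDiff ℝ ∞ (FF δ A) := by
  have hr := rh_contDiff hδ
  unfold FF
  have hθ : ContDiff ℝ ∞ fun P : ℝ × ℝ × ℝ × (Fin 4 → ℝ) =>
      rh δ (P.2.2.2 0 + P.2.2.2 1 * P.2.1) := by
    refine hr.comp ?_
    fun_prop
  have h1 : ContDiff ℝ ∞ fun P : ℝ × ℝ × ℝ × (Fin 4 → ℝ) =>
      A (P.1 * rh δ (P.2.2.2 0 + P.2.2.2 1 * P.2.1)) := hA.comp (contDiff_fst.mul hθ)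
  have h2 : ContDiff ℝ ∞ fun P : ℝ × ℝ × ℝ × (Fin 4 → ℝ) =>
      A (P.2.2.1 * rh δ (P.2.2.2 0 + P.2.2.2 1 * P.2.1)) := by
    refine hA.comp (ContDiff.mul ?_ hθ)
    fun_prop
  have h3 : ContDiff ℝ ∞ fun P : ℝ × ℝ × ℝ × (Fin 4 → ℝ) => P.2.2.2 2 := by fun_prop
  have h4 : ContDiff ℝ ∞ fun P : ℝ × ℝ × ℝ × (Fin 4 → ℝ) => P.2.2.2 3 := by fun_prop
  have h5 : ContDiff ℝ ∞ fun P : ℝ × ℝ × ℝ × (Fin 4 → ℝ) => P.2.1 := by fun_prop
  exact (h5.sub (h3.mul h1)).sub (h4.mul h2)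

lemma cF_deriv (X : ℝ) (pm : Fin 4 → ℝ) :
    fderiv ℝ cF (X, pm) (1, 0) = -sin (pm 0 + pm 1 * X) * pm 1 := by
  have hL : HasDerivAt (fun s : ℝ => (X + s, pm)) ((1 : ℝ), (0 : Fin 4 → ℝ)) 0 := by
    refine HasDerivAt.prodMk ?_ (hasDerivAt_const _ _)
    simpa using (hasDerivAt_id (0 : ℝ)).const_add X
  have h1 : HasFDerivAt cF (fderiv ℝ cF (X, pm)) (X + 0, pm) := by
    rw [add_zero]
    exact ((cF_contDiff.differentiable (by simp)) (X, pm)).hasFDerivAt
  have h2 := h1.comp_hasDerivAt (0 : ℝ) hL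
  have h3 : HasDerivAt (fun s : ℝ => cos (pm 0 + pm 1 * (X + s)))
      (-sin (pm 0 + pm 1 * (X + 0)) * pm 1) 0 := by
    have h4 : HasDerivAt (fun s : ℝ => pm 0 + pm 1 * (X + s)) (pm 1) 0 := by
      simpa using (((hasDerivAt_id (0 : ℝ)).const_add X).const_mul (pm 1)).const_add (pm 0)
    exact h4.cos
  rw [add_zero] at h3
  exact h2.unique h3

lemma FF_deriv (hδ : δ ≠ 0) {A : ℝ → ℝ} (hA : ContDiff ℝ ∞ A) (a X b : ℝ) (pm : Fin 4 → ℝ)
    {Aa Ab : ℝ} (ha : HasDerivAt A Aa (a * rh δ (pm 0 + pm 1 * X)))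
    (hb : HasDerivAt A Ab (b * rh δ (pm 0 + pm 1 * X))) (a' ν b' : ℝ) :
    fderiv ℝ (FF δ A) (a, X, b, pm) (a', ν, b', 0) =
      ν - pm 2 * (Aa * (a' * rh δ (pm 0 + pm 1 * X) +
        a * (rhd δ (pm 0 + pm 1 * X) * (pm 1 * ν)))) -
      pm 3 * (Ab * (b' * rh δ (pm 0 + pm 1 * X) +
        b * (rhd δ (pm 0 + pm 1 * X) * (pm 1 * ν)))) := by
  have hl : ∀ x x' : ℝ, HasDerivAt (fun s : ℝ => x + s * x') x' 0 := by
    intro x x'
    simpa using ((hasDerivAt_id (0 : ℝ)).mul_const x').const_add x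
  have hL : HasDerivAt (fun s : ℝ => (a + s * a', X + s * ν, b + s * b', pm))
      (a', ν, b', (0 : Fin 4 → ℝ)) 0 :=
    (hl a a').prodMk ((hl X ν).prodMk ((hl b b').prodMk (hasDerivAt_const _ _)))
  have h1 : HasFDerivAt (FF δ A) (fderiv ℝ (FF δ A) (a, X, b, pm))
      (a + 0 * a', X + 0 * ν, b + 0 * b', pm) := by
    simp only [zero_mul, add_zero]
    exact (((FF_contDiff hδ hA).differentiable (by simp)) (a, X, b, pm)).hasFDerivAt
  have h2 := h1.comp_hasDerivAt (0 : ℝ) hL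
  have hθ : HasDerivAt (fun s : ℝ => pm 0 + pm 1 * (X + s * ν)) (pm 1 * ν) 0 :=
    ((hl X ν).const_mul (pm 1)).const_add (pm 0)
  have hr : HasDerivAt (fun s : ℝ => rh δ (pm 0 + pm 1 * (X + s * ν)))
      (rhd δ (pm 0 + pm 1 * X) * (pm 1 * ν)) 0 := by
    have h3 : HasDerivAt (rh δ) (rhd δ (pm 0 + pm 1 * X)) (pm 0 + pm 1 * (X + 0 * ν)) := by
      rw [zero_mul, add_zero]
      exact rh_hasDeriv hδ _
    exact HasDerivAt.comp (h₂ := rh δ) (h := fun s : ℝ => pm 0 + pm 1 * (X + s * ν)) (0 : ℝ) h3 hθ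
  have hgen : ∀ x x' Ax : ℝ, HasDerivAt A Ax (x * rh δ (pm 0 + pm 1 * X)) →
      HasDerivAt (fun s : ℝ => A ((x + s * x') * rh δ (pm 0 + pm 1 * (X + s * ν))))
        (Ax * (x' * rh δ (pm 0 + pm 1 * X) + x * (rhd δ (pm 0 + pm 1 * X) * (pm 1 * ν)))) 0 := by
    intro x x' Ax hx
    have h4 : HasDerivAt (fun s : ℝ => (x + s * x') * rh δ (pm 0 + pm 1 * (X + s * ν)))
        (x' * rh δ (pm 0 + pm 1 * X) + x * (rhd δ (pm 0 + pm 1 * X) * (pm 1 * ν))) 0 := by
      have h5 : HasDerivAt (fun s : ℝ => (x + s * x') * rh δ (pm 0 + pm 1 * (X + s * ν)))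
        (x' * rh δ (pm 0 + pm 1 * (X + 0 * ν)) +
          (x + 0 * x') * (rhd δ (pm 0 + pm 1 * X) * (pm 1 * ν))) 0 := (hl x x').mul hr
      simpa only [zero_mul, add_zero] using h5
    have h6 : HasDerivAt A Ax ((x + 0 * x') * rh δ (pm 0 + pm 1 * (X + 0 * ν))) := by
      simpa only [zero_mul, add_zero] using hx
    exact HasDerivAt.comp (h₂ := A)
      (h := fun s : ℝ => (x + s * x') * rh δ (pm 0 + pm 1 * (X + s * ν))) (0 : ℝ) h6 h4
  have h7 : HasDerivAt (fun s : ℝ => (X + s * ν) -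
      pm 2 * A ((a + s * a') * rh δ (pm 0 + pm 1 * (X + s * ν))) -
      pm 3 * A ((b + s * b') * rh δ (pm 0 + pm 1 * (X + s * ν))))
      (ν - pm 2 * (Aa * (a' * rh δ (pm 0 + pm 1 * X) +
        a * (rhd δ (pm 0 + pm 1 * X) * (pm 1 * ν)))) -
      pm 3 * (Ab * (b' * rh δ (pm 0 + pm 1 * X) +
        b * (rhd δ (pm 0 + pm 1 * X) * (pm 1 * ν))))) 0 :=
    ((hl X ν).sub ((hgen a a' Aa ha).const_mul (pm 2))).sub ((hgen b b' Ab hb).const_mul (pm 3))
  exact h2.unique h7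

/-! ### small facts -/

lemma yone {p : P3} (hy : p.y ^ 2 = 1) (k : ℕ) :
    (stepR^[k] p).z = p.y ^ k * (p.z + k * (p.y * p.x - p.z)) ∧
    (stepR^[k] p).x = p.y ^ (k + 1) * (p.z + (k + 1) * (p.y * p.x - p.z)) := by
  induction k with
  | zero =>
    simp only [Function.iterate_zero, id, Nat.cast_zero, pow_zero, zero_mul, add_zero, one_mul,
      zero_add, pow_one, true_and]
    linear_combination -p.x * hy
  | succ k ih =>
    obtain ⟨h1, h2⟩ := ih
    rw [Function.iterate_succ_apply']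
    refine ⟨?_, ?_⟩
    · push_cast
      exact h2
    · change 2 * (stepR^[k] p).x * (stepR^[k] p).y - (stepR^[k] p).z = _
      rw [iter_y, h1, h2]
      push_cast
      have e1 : p.y ^ (k + 1 + 1) = p.y ^ k := by
        rw [pow_succ, pow_succ, mul_assoc, ← sq, hy, mul_one]
      have e2 : 2 * (p.y ^ (k + 1) * (p.z + ((k : ℝ) + 1) * (p.y * p.x - p.z))) * p.y =
          2 * p.y ^ (k + 1 + 1) * (p.z + ((k : ℝ) + 1) * (p.y * p.x - p.z)) := by ring
      rw [e2, e1]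
      ring

lemma contP_iter {q : ℝ → P3} {I : Set ℝ} (h : ContP q I) (k : ℕ) :
    ContP (fun t => stepR^[k] (q t)) I := by
  induction k with
  | zero => exact h
  | succ k ih =>
    obtain ⟨h1, h2, h3⟩ := ih
    have e : (fun t => stepR^[k + 1] (q t)) = fun t => stepR (stepR^[k] (q t)) := by
      funext t
      rw [Function.iterate_succ_apply']
    rw [e]
    exact ⟨h3, h2, ((continuousOn_const.mul h3).mul h2).sub h1⟩

lemma arccos_lip {m s s' : ℝ} (hm1 : m < 1) (hs : |s| ≤ m) (hs' : |s'| ≤ m) :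
    |arccos s - arccos s'| ≤ 1 / √(1 - m ^ 2) * |s - s'| := by
  have hm0 : 0 ≤ m := (abs_nonneg s).trans hs
  have hpos : 0 < 1 - m ^ 2 := by nlinarith
  have := Convex.norm_image_sub_le_of_norm_hasDerivWithin_le (f := arccos)
    (f' := fun x => -(1 / √(1 - x ^ 2))) (C := 1 / √(1 - m ^ 2)) (s := Icc (-m) m) (x := s')
    (y := s) (fun x hx => (Real.hasDerivAt_arccos (by have := hx.1; linarith)
      (by have := hx.2; linarith)).hasDerivWithinAt) (fun x hx => by
        rw [norm_neg, Real.norm_eq_abs, abs_of_nonneg (by positivity)]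
        refine one_div_le_one_div_of_le (Real.sqrt_pos.2 hpos) (Real.sqrt_le_sqrt ?_)
        have := abs_le.2 hx
        nlinarith [sq_abs x, abs_nonneg x]) (convex_Icc _ _) (abs_le.1 hs') (abs_le.1 hs)
  simpa only [Real.norm_eq_abs] using this

lemma rh_lip (hδ : δ ≠ 0) (x y : ℝ) : |rh δ x - rh δ y| ≤ 1 / |δ| * |x - y| := by
  have := Convex.norm_image_sub_le_of_norm_hasDerivWithin_le (f := rh δ)
    (f' := rhd δ) (C := 1 / |δ|) (s := Set.univ) (x := y)
    (y := x) (fun x _ => (rh_hasDeriv hδ x).hasDerivWithinAt) (fun x _ => by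
        rw [Real.norm_eq_abs]
        exact rhd_le hδ x) convex_univ (mem_univ _) (mem_univ _)
  simpa only [Real.norm_eq_abs] using this

end NFb

open NFb in
theorem tSNFb (hW : SWin) : SNFb := by
  intro δ κ hδ hκ1 hκ
  have hcc := cc_pos δ
  have hcc1 := one_lt_cc hδ
  have hcs := cc_sq δ
  have hd : 0 < |δ| := abs_pos.2 hδ
  have hκ0 : 0 < κ := by linarith
  set m : ℝ := κ / cc δ with hm
  have hm0 : 0 < m := div_pos hκ0 hcc
  have hm1 : m < 1 := (div_lt_one hcc).2 hκ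
  obtain ⟨A, hA, hA2⟩ := exists_A (m1 := (m + 1) / 2) (by linarith) (by linarith)
  have hA3 : ∀ x, |x| ≤ m → A x = arccos x ∧ HasDerivAt A (-(1 / √(1 - x ^ 2))) x :=
    fun x hx => hA2 x (by linarith)
  have hpos : 0 < 1 - m ^ 2 := by nlinarith
  set LA : ℝ := 1 / √(1 - m ^ 2) with hLA
  have hLA0 : 0 < LA := one_div_pos.2 (Real.sqrt_pos.2 hpos)
  have hAd : ∀ x, |x| ≤ m → |-(1 / √(1 - x ^ 2))| ≤ LA := by
    intro x hx
    rw [abs_neg, abs_of_nonneg (by positivity)]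
    refine one_div_le_one_div_of_le (Real.sqrt_pos.2 hpos) (Real.sqrt_le_sqrt ?_)
    nlinarith [sq_abs x, abs_nonneg x]
  set C1 : ℝ := LA * κ * (1 / |δ|) with hC1
  have hC10 : 0 < C1 := by positivity
  obtain ⟨K0, hK0⟩ := hW δ κ hδ hκ1 hκ
  obtain ⟨N1, hN1⟩ := exists_nat_gt (2 * κ / |δ|)
  obtain ⟨N2, hN2⟩ := exists_nat_gt (4 * C1)
  refine ⟨K0 + N1 + N2 + 1, 4, cF, FF δ A, 10 + 2 * LA, cF_contDiff, FF_contDiff hδ hA,
    by positivity, ?_⟩
  intro D hD I q hI hne hq hall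
  have hD' : K0 + N1 + N2 + 1 ≤ D := hD
  have hDK : K0 < D := by omega
  have hDN1 : (N1 : ℝ) ≤ D := by exact_mod_cast (by omega : N1 ≤ D)
  have hDN2 : (N2 : ℝ) ≤ D := by exact_mod_cast (by omega : N2 ≤ D)
  have hD1 : (1 : ℝ) ≤ D := by exact_mod_cast (by omega : 1 ≤ D)
  have hD0 : (0 : ℝ) < D := by linarith
  have hy : ∀ t ∈ I, |(q t).y| < 1 := by
    intro t ht
    obtain ⟨hS, hz, hyk, hb⟩ := hall t ht
    by_contra hcon
    rw [not_lt] at hcon
    rcases hcon.lt_or_eq with h | h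
    · have := (hK0 (q t) 0 D hS h (Nat.zero_le _) (by simpa using hz) hb).2 hyk
      omega
    · have hy2 : (q t).y ^ 2 = 1 := by rw [← sq_abs, ← h]; norm_num
      have h1 := (yone hy2 D).1
      have h2 : |(q t).z + D * ((q t).y * (q t).x - (q t).z)| ≤ κ := by
        rw [h1, abs_mul, abs_pow, ← h, one_pow, one_mul] at hb
        exact hb
      have h3 : |(q t).y * (q t).x - (q t).z| = |δ| := by
        rw [← abs_of_nonneg (abs_nonneg ((q t).y * (q t).x - (q t).z)),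
          ← abs_of_nonneg (abs_nonneg δ), ← sq_eq_sq_iff_abs_eq_abs, sq_abs, sq_abs]
        have h4 := hS.X2
        rw [hy2] at h4
        unfold gX at h4
        linear_combination h4 + ((q t).x ^ 2 - (q t).z ^ 2) * hy2
      have h4 : D * |δ| ≤ 2 * κ := by
        rw [← h3, ← abs_of_pos hD0, ← abs_mul]
        have h5 := abs_sub (((q t).z + D * ((q t).y * (q t).x - (q t).z))) (q t).z
        rw [add_sub_cancel_left] at h5
        linarith
      have h5 : 2 * κ < N1 * |δ| := (div_lt_iff₀ hd).1 hN1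
      nlinarith
  have hbI := contP_iter hq D
  obtain ⟨cz, cy, cx⟩ := hq
  -- the sign of gX
  have hg0 : ∀ t ∈ I, gX (q t) ≠ 0 := by
    intro t ht h0
    obtain ⟨hS, hz, hyk, hb⟩ := hall t ht
    have h1 := hS.X2
    rw [h0] at h1
    have h2 := hy t ht
    have h3 : (q t).y ^ 2 < 1 := (sq_lt_one_iff_abs_lt_one _).2 h2
    have h4 : (q t).z ^ 2 ≤ κ ^ 2 := by
      rw [← sq_abs]
      gcongr
    have h5 : κ ^ 2 < 1 + δ ^ 2 := by
      rw [← hcs]
      gcongr
    have h6 := sq_nonneg (q t).y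
    have hδ2 : 0 < δ ^ 2 := by positivity
    rcases le_total ((q t).z ^ 2) 1 with h7 | h7
    · nlinarith [mul_nonneg (sub_nonneg.2 h3.le) (sub_nonneg.2 h7)]
    · nlinarith [mul_nonneg h6 (sub_nonneg.2 h7)]
  obtain ⟨ε, hε, hεg⟩ := sign_const hI hne (g := fun t => gX (q t))
    (cx.sub (cy.mul cz)) hg0
  have hε2 := eps_sq hε
  -- continuity
  have cϑ : ContinuousOn (fun t => arccos (q t).y) I := Real.continuous_arccos.comp_continuousOn cy
  have crh : ContinuousOn (fun t => rh δ (arccos (q t).y)) I :=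
    (rh_contDiff hδ).continuous.comp_continuousOn cϑ
  have cψa : ContinuousOn (fun t => arccos ((q t).z * rh δ (arccos (q t).y))) I :=
    Real.continuous_arccos.comp_continuousOn (cz.mul crh)
  have cψb : ContinuousOn (fun t => arccos ((stepR^[D] (q t)).z * rh δ (arccos (q t).y))) I :=
    Real.continuous_arccos.comp_continuousOn (hbI.1.mul crh)
  have cw : ContinuousOn (fun t => D * arccos (q t).y -
      ε * arccos ((q t).z * rh δ (arccos (q t).y))) I :=
    (continuousOn_const.mul cϑ).sub (continuousOn_const.mul cψa)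
  have hbd : ∀ (x ϑ : ℝ), |x| ≤ κ → |x * rh δ ϑ| ≤ m := by
    intro x ϑ hx
    rw [abs_mul, hm, div_eq_mul_one_div]
    exact mul_le_mul hx (rh_le hδ ϑ) (abs_nonneg _) hκ0.le
  have hcosw : ∀ t ∈ I, cos (D * arccos (q t).y -
      ε * arccos ((q t).z * rh δ (arccos (q t).y))) =
      (stepR^[D] (q t)).z * rh δ (arccos (q t).y) := by
    intro t ht
    rw [← P_id hδ (hall t ht).1 (hy t ht) hε (hεg t ht) D, mul_comm]
  have hbm : ∀ t ∈ I, |(stepR^[D] (q t)).z * rh δ (arccos (q t).y)| ≤ m :=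
    fun t ht => hbd _ _ (hall t ht).2.2.2
  have ham : ∀ t ∈ I, |(q t).z * rh δ (arccos (q t).y)| ≤ m :=
    fun t ht => hbd _ _ (hall t ht).2.1
  have hsinw : ∀ t ∈ I, sin (D * arccos (q t).y -
      ε * arccos ((q t).z * rh δ (arccos (q t).y))) ≠ 0 := by
    intro t ht h0
    have h1 := Real.sin_sq_add_cos_sq (D * arccos (q t).y -
      ε * arccos ((q t).z * rh δ (arccos (q t).y)))
    rw [h0, hcosw t ht, ← sq_abs ((stepR^[D] (q t)).z * rh δ (arccos (q t).y))] at h1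
    have h2 := hbm t ht
    nlinarith [abs_nonneg ((stepR^[D] (q t)).z * rh δ (arccos (q t).y))]
  obtain ⟨ε', hε', hεs⟩ := sign_const hI hne
    (g := fun t => sin (D * arccos (q t).y - ε * arccos ((q t).z * rh δ (arccos (q t).y))))
    (Real.continuous_sin.comp_continuousOn cw) hsinw
  have hε'2 := eps_sq hε'
  have hsqb : ∀ t ∈ I, √(1 - ((stepR^[D] (q t)).z * rh δ (arccos (q t).y)) ^ 2) =
      ε' * sin (D * arccos (q t).y - ε * arccos ((q t).z * rh δ (arccos (q t).y))) := by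
    intro t ht
    have h1 := Real.sin_sq_add_cos_sq (D * arccos (q t).y -
      ε * arccos ((q t).z * rh δ (arccos (q t).y)))
    rw [hcosw t ht] at h1
    have h2 : 1 - ((stepR^[D] (q t)).z * rh δ (arccos (q t).y)) ^ 2 =
        (ε' * sin (D * arccos (q t).y - ε * arccos ((q t).z * rh δ (arccos (q t).y)))) ^ 2 := by
      rw [mul_pow ε', hε'2]
      linarith
    rw [h2, Real.sqrt_sq (hεs t ht).le]
  have hint : ∀ t ∈ I, ∃ k : ℤ, (fun t => (D * arccos (q t).y -
      ε * arccos ((q t).z * rh δ (arccos (q t).y)) -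
      ε' * arccos ((stepR^[D] (q t)).z * rh δ (arccos (q t).y))) / (2 * π)) t = k := by
    intro t ht
    have h1 := abs_le.1 (hbm t ht)
    have hcb : cos (arccos ((stepR^[D] (q t)).z * rh δ (arccos (q t).y))) =
        (stepR^[D] (q t)).z * rh δ (arccos (q t).y) := Real.cos_arccos (by linarith) (by linarith)
    have hsb : sin (arccos ((stepR^[D] (q t)).z * rh δ (arccos (q t).y))) =
        ε' * sin (D * arccos (q t).y - ε * arccos ((q t).z * rh δ (arccos (q t).y))) := by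
      rw [Real.sin_arccos, hsqb t ht]
    have h2 : cos (D * arccos (q t).y - ε * arccos ((q t).z * rh δ (arccos (q t).y)) -
        ε' * arccos ((stepR^[D] (q t)).z * rh δ (arccos (q t).y))) = 1 := by
      rw [cos_sub, hcosw t ht]
      have e1 : cos (ε' * arccos ((stepR^[D] (q t)).z * rh δ (arccos (q t).y))) =
          (stepR^[D] (q t)).z * rh δ (arccos (q t).y) := by
        rcases hε' with h | h
        · rw [h, one_mul, hcb]
        · rw [h, neg_one_mul, cos_neg, hcb]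
      have e2 : sin (ε' * arccos ((stepR^[D] (q t)).z * rh δ (arccos (q t).y))) =
          sin (D * arccos (q t).y - ε * arccos ((q t).z * rh δ (arccos (q t).y))) := by
        rcases hε' with h | h
        · rw [h, one_mul, hsb, h, one_mul]
        · rw [h, neg_one_mul, sin_neg, hsb, h]
          ring
      rw [e1, e2]
      have h3 := Real.sin_sq_add_cos_sq (D * arccos (q t).y -
        ε * arccos ((q t).z * rh δ (arccos (q t).y)))
      rw [hcosw t ht] at h3
      linarith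
    obtain ⟨k, hk⟩ := (Real.cos_eq_one_iff _).1 h2
    refine ⟨k, ?_⟩
    change (D * arccos (q t).y - ε * arccos ((q t).z * rh δ (arccos (q t).y)) -
        ε' * arccos ((stepR^[D] (q t)).z * rh δ (arccos (q t).y))) / (2 * π) = k
    rw [← hk, mul_div_assoc, div_self (by positivity), mul_one]
  obtain ⟨k0, hk0⟩ := int_const hI hne
    (((cw.sub (continuousOn_const.mul cψb)).div_const (2 * π))) hint
  have hXeq : ∀ t ∈ I, D * arccos (q t).y - 2 * π * k0 =
      ε * arccos ((q t).z * rh δ (arccos (q t).y)) +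
      ε' * arccos ((stepR^[D] (q t)).z * rh δ (arccos (q t).y)) := by
    intro t ht
    have h1 : (D * arccos (q t).y - ε * arccos ((q t).z * rh δ (arccos (q t).y)) -
        ε' * arccos ((stepR^[D] (q t)).z * rh δ (arccos (q t).y))) / (2 * π) = k0 := hk0 t ht
    rw [div_eq_iff (by positivity)] at h1
    linarith
  have heps : ∀ e : ℝ, (e = 1 ∨ e = -1) → |e| = 1 := by
    intro e he
    rcases he with h | h <;> rw [h] <;> norm_num
  have hXb : ∀ t ∈ I, |D * arccos (q t).y - 2 * π * k0| ≤ 2 * π := by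
    intro t ht
    rw [hXeq t ht]
    refine (abs_add_le _ _).trans ?_
    rw [abs_mul, abs_mul, heps ε hε, heps ε' hε', one_mul, one_mul,
      abs_of_nonneg (Real.arccos_nonneg _), abs_of_nonneg (Real.arccos_nonneg _)]
    linarith [Real.arccos_le_pi ((q t).z * rh δ (arccos (q t).y)),
      Real.arccos_le_pi ((stepR^[D] (q t)).z * rh δ (arccos (q t).y))]
  let pm : Fin 4 → ℝ := ![2 * π * k0 / D, 1 / D, ε, ε']
  have hp0 : pm 0 = 2 * π * k0 / D := rfl
  have hp1 : pm 1 = 1 / D := rfl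
  have hp2 : pm 2 = ε := rfl
  have hp3 : pm 3 = ε' := rfl
  have hθ : ∀ t ∈ I, pm 0 + pm 1 * (D * arccos (q t).y - 2 * π * k0) = arccos (q t).y := by
    intro t _
    rw [hp0, hp1]
    field_simp
    ring
  have hpi := Real.pi_lt_d2
  have hpi0 := Real.pi_pos
  refine ⟨pm, fun t => D * arccos (q t).y - 2 * π * k0, ?_, ?_, ?_⟩
  · intro i
    fin_cases i
    · change |2 * π * k0 / D| ≤ _
      obtain ⟨t0, ht0⟩ := hne
      have h1 := hXb t0 ht0
      have h2 : 2 * π * k0 / D = arccos (q t0).y - (D * arccos (q t0).y - 2 * π * k0) / D := by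
        field_simp
        ring
      rw [h2]
      refine (abs_sub _ _).trans ?_
      rw [abs_of_nonneg (Real.arccos_nonneg _), abs_div, abs_of_pos hD0]
      have h3 : |D * arccos (q t0).y - 2 * π * k0| / D ≤ 2 * π := by
        rw [div_le_iff₀ hD0]
        nlinarith
      linarith [Real.arccos_le_pi (q t0).y]
    · change |1 / (D : ℝ)| ≤ _
      rw [abs_of_pos (by positivity)]
      have : 1 / (D : ℝ) ≤ 1 := by
        rw [div_le_one hD0]
        exact hD1
      linarith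
    · change |ε| ≤ _
      rw [heps ε hε]
      linarith
    · change |ε'| ≤ _
      rw [heps ε' hε']
      linarith
  · intro t ht
    have hyt := hy t ht
    have hθt := hθ t ht
    have ha := hA3 _ (ham t ht)
    have hb := hA3 _ (hbm t ht)
    have hsin := sin_pos' hyt
    have hX := hXeq t ht
    have hFd := fun a' ν b' => FF_deriv hδ hA (q t).z (D * arccos (q t).y - 2 * π * k0)
      (stepR^[D] (q t)).z pm (by rw [hθt]; exact ha.2) (by rw [hθt]; exact hb.2) a' ν b'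
    rw [hθt, hp1, hp2, hp3] at hFd
    refine ⟨(hXb t ht).trans (by linarith), ?_, ?_, ?_, ?_⟩
    · change cos (pm 0 + pm 1 * (D * arccos (q t).y - 2 * π * k0)) = _
      rw [hθt]
      have := abs_lt.1 hyt
      exact Real.cos_arccos (by linarith) (by linarith)
    · change (D * arccos (q t).y - 2 * π * k0) -
        pm 2 * A ((q t).z * rh δ (pm 0 + pm 1 * (D * arccos (q t).y - 2 * π * k0))) -
        pm 3 * A ((stepR^[D] (q t)).z * rh δ (pm 0 + pm 1 * (D * arccos (q t).y - 2 * π * k0))) = 0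
      rw [hθt, hp2, hp3, ha.1, hb.1, hX]
      ring
    · rw [hFd 0 1 0, zero_mul, zero_add, zero_add, mul_one]
      have hK : 1 / (10 + 2 * LA) ≤ 1 / 2 := one_div_le_one_div_of_le (by norm_num) (by linarith)
      refine hK.trans ?_
      have hterm : ∀ (e Ax x : ℝ), |e| = 1 → |Ax| ≤ LA → |x| ≤ κ →
          |e * (Ax * (x * (rhd δ (arccos (q t).y) * (1 / D))))| ≤ 1 / 4 := by
        intro e Ax x he hAx hx
        rw [abs_mul, he, one_mul, abs_mul, abs_mul, abs_mul, abs_of_pos (by positivity :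
          (0 : ℝ) < 1 / D)]
        calc |Ax| * (|x| * (|rhd δ (arccos (q t).y)| * (1 / D)))
            ≤ LA * (κ * (1 / |δ| * (1 / D))) := by
              have := rhd_le hδ (arccos (q t).y)
              gcongr
          _ = C1 / D := by rw [hC1]; ring
          _ ≤ 1 / 4 := by
              rw [div_le_div_iff₀ hD0 (by norm_num)]
              linarith
      have h1 := hterm ε _ _ (heps ε hε) (hAd _ (ham t ht)) (hall t ht).2.1
      have h2 := hterm ε' _ _ (heps ε' hε') (hAd _ (hbm t ht)) (hall t ht).2.2.2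
      have h3 := abs_le.1 h1
      have h4 := abs_le.1 h2
      refine le_trans ?_ (le_abs_self _)
      linarith
    · intro u hu
      have htan := tan_id hδ (hall t ht).1 hyt hε (hεg t ht) D hu
      refine ⟨D * (-(1 / √(1 - (q t).y ^ 2)) * u.y), ?_, ?_⟩
      · rw [cF_deriv, hθt, hp1, Real.sin_arccos]
        have hs : 0 < √(1 - (q t).y ^ 2) := by
          rw [← Real.sin_arccos]
          exact hsin
        field_simp
      · rw [hFd]
        have hsq := hsqb t ht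
        have hs0 := hsinw t ht
        have e1 : 1 / (D : ℝ) * (D * (-(1 / √(1 - (q t).y ^ 2)) * u.y)) =
            -(1 / √(1 - (q t).y ^ 2)) * u.y := by
          field_simp
        rw [e1, hsq]
        set sw := sin (D * arccos (q t).y - ε * arccos ((q t).z * rh δ (arccos (q t).y)))
        set θ' := -(1 / √(1 - (q t).y ^ 2)) * u.y
        set Aa := -(1 / √(1 - ((q t).z * rh δ (arccos (q t).y)) ^ 2))
        set r := rh δ (arccos (q t).y)
        set r' := rhd δ (arccos (q t).y)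
        set b := (stepR^[D] (q t)).z
        set b' := (dRk D (q t) u).z
        have hε'0 : ε' ≠ 0 := by
          intro h
          rw [h] at hε'2
          norm_num at hε'2
        have e2 : ε' * (-(1 / (ε' * sw)) * (b' * r + b * (r' * θ'))) =
            -(b' * r + b * (r' * θ')) / sw := by
          field_simp
        rw [e2]
        have e3 : (D : ℝ) * θ' - ε * (Aa * (u.z * r + (q t).z * (r' * θ'))) =
            -(b' * r + b * (r' * θ')) / sw := by
          rw [eq_div_iff hs0]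
          linear_combination htan
        rw [e3, sub_self]
  · intro t ht t' ht'
    set X := D * arccos (q t).y - 2 * π * k0 with hXd
    set X' := D * arccos (q t').y - 2 * π * k0 with hXd'
    have hϑ : |arccos (q t).y - arccos (q t').y| = |X - X'| / D := by
      have : X - X' = D * (arccos (q t).y - arccos (q t').y) := by
        rw [hXd, hXd']
        ring
      rw [this, abs_mul, abs_of_pos hD0]
      field_simp
    have hprod : ∀ x x' : ℝ, |x'| ≤ κ → |x * rh δ (arccos (q t).y) - x' * rh δ (arccos (q t').y)| ≤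
        |x - x'| + κ * (1 / |δ| * (|X - X'| / D)) := by
      intro x x' hx'
      have e : x * rh δ (arccos (q t).y) - x' * rh δ (arccos (q t').y) =
          (x - x') * rh δ (arccos (q t).y) +
            x' * (rh δ (arccos (q t).y) - rh δ (arccos (q t').y)) := by ring
      rw [e]
      refine (abs_add_le _ _).trans ?_
      rw [abs_mul, abs_mul]
      have h1 := rh_le hδ (arccos (q t).y)
      have h2 := rh_lip hδ (arccos (q t).y) (arccos (q t').y)
      rw [hϑ] at h2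
      have h3 : 1 / cc δ ≤ 1 := by
        rw [div_le_one hcc]
        exact hcc1.le
      have h4 : |x - x'| * |rh δ (arccos (q t).y)| ≤ |x - x'| * 1 :=
        mul_le_mul_of_nonneg_left (h1.trans h3) (abs_nonneg _)
      have h5 : |x'| * |rh δ (arccos (q t).y) - rh δ (arccos (q t').y)| ≤
          κ * (1 / |δ| * (|X - X'| / D)) := mul_le_mul hx' h2 (abs_nonneg _) hκ0.le
      linarith
    have ha := arccos_lip hm1 (ham t ht) (ham t' ht')
    have hb := arccos_lip hm1 (hbm t ht) (hbm t' ht')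
    have hpa := hprod (q t).z (q t').z (hall t' ht').2.1
    have hpb := hprod (stepR^[D] (q t)).z (stepR^[D] (q t')).z (hall t' ht').2.2.2
    have h1 : |X - X'| ≤ LA * (|(q t).z - (q t').z| + κ * (1 / |δ| * (|X - X'| / D))) +
        LA * (|(stepR^[D] (q t)).z - (stepR^[D] (q t')).z| + κ * (1 / |δ| * (|X - X'| / D))) := by
      have e : X - X' = ε * (arccos ((q t).z * rh δ (arccos (q t).y)) -
          arccos ((q t').z * rh δ (arccos (q t').y))) +
          ε' * (arccos ((stepR^[D] (q t)).z * rh δ (arccos (q t).y)) -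
          arccos ((stepR^[D] (q t')).z * rh δ (arccos (q t').y))) := by
        rw [hXd, hXd', hXeq t ht, hXeq t' ht']
        ring
      rw [e]
      refine (abs_add_le _ _).trans ?_
      rw [abs_mul, abs_mul, heps ε hε, heps ε' hε', one_mul, one_mul]
      rw [← e]
      exact add_le_add (ha.trans (mul_le_mul_of_nonneg_left hpa hLA0.le))
        (hb.trans (mul_le_mul_of_nonneg_left hpb hLA0.le))
    have h2 : LA * (κ * (1 / |δ| * (|X - X'| / D))) ≤ 1 / 4 * |X - X'| := by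
      calc LA * (κ * (1 / |δ| * (|X - X'| / D))) = (C1 / D) * |X - X'| := by rw [hC1]; ring
        _ ≤ 1 / 4 * |X - X'| := by
          refine mul_le_mul_of_nonneg_right ?_ (abs_nonneg _)
          rw [div_le_div_iff₀ hD0 (by norm_num)]
          linarith
    have h3 := abs_nonneg ((q t).z - (q t').z)
    have h4 := abs_nonneg ((stepR^[D] (q t)).z - (stepR^[D] (q t')).z)
    have h5 := abs_nonneg ((q t).y - (q t').y)
    have h6 := abs_nonneg (X - X')
    change |X - X'| ≤ _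
    nlinarith [mul_nonneg hLA0.le h3, mul_nonneg hLA0.le h4, mul_nonneg hLA0.le h5]

end

end Pool.Agent.H294.Tm
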